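import Pool.Agent.Helper91.KZ.StM

/-!
# MP_1d885e_al: the last step in a tower of cyclic extensions
-/

namespace Pool.Agent.Helper91.KZ

open Polynomial TensorProduct

universe u

noncomputable section

theorem dr1_dg_equiv {M Δ Δ' : Type u} [Field M] [Ring Δ] [Algebra M Δ] [Ring Δ'] [Algebra M Δ']
    (e : Δ ≃ₐ[M] Δ') (x : Δ) : dg M (e x) = dg M x := by
  unfold dg
  rw [minpoly.algEquiv_eq e x]

theorem dr1_KP_equiv {M Δ Δ' : Type u} [Field M] [Ring Δ] [Algebra M Δ] [Ring Δ'] [Algebra M Δ']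
    {p κ : ℕ} (e : Δ ≃ₐ[M] Δ') (h : KP p κ M Δ) : KP p κ M Δ' := by
  intro x hx
  have h1 := dr1_dg_equiv e (e.symm x)
  rw [AlgEquiv.apply_symm_apply] at h1
  rw [h1] at hx
  exact h _ hx

theorem dr1_KP_of_val {E D : Type u} [Field E] [DivisionRing D] [Algebra E D] {p : ℕ}
    (hp : p.Prime) (hD : DA E D) (h : ∀ x : D, padicValNat p (dg E x) ≤ 0) : KP p 0 E D := by
  intro x hx
  rw [zero_add, pow_one] at hx
  have h0 : dg E x ≠ 0 := (minpoly.natDegree_pos (hD.alg x)).ne'
  haveI : Fact p.Prime := ⟨hp⟩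
  have h1 : 1 ≤ padicValNat p (dg E x) := one_le_padicValNat_of_dvd h0 hx
  have h2 := h x
  omega

theorem dr1_uncountable {F T : Type u} [Field F] [Uncountable F] [Field T] [Algebra F T] :
    Uncountable T :=
  (algebraMap F T).injective.uncountable

theorem st_DR1 (STP : ST_STP.{u}) (TS : ST_TS.{u}) (KPD : ST_KPD.{u}) (EMB : ST_EMB.{u})
    (MMI : ST_MMI.{u}) (UNI : ST_UNI.{u}) (DVS : ST_DVS.{u}) : ST_DR1.{u} := by
  intro t
  induction t with
  | zero =>
    intro F D N _ _ _ _ _ _ _ _ _ p hp hN hD hK hyp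
    exfalso
    obtain ⟨r, X, _, _, hX, hr⟩ := TS F D N hD
    rw [hN, pow_zero, Nat.dvd_one] at hr
    subst hr
    have h1 := hyp X 1 hX
    exact hK (dr1_KP_of_val hp hD fun x => by
      have := KPD F D N X p 0 1 hp hD h1 hX x
      simpa using this)
  | succ t ih =>
    intro F D N _ _ _ _ _ _ _ _ _ p hp hN hD hK hyp
    have hne : (⊤ : IntermediateField F N) ≠ ⊥ := by
      intro h
      have h1 : Module.finrank F (⊤ : IntermediateField F N) = 1 := by
        rw [h]; exact IntermediateField.finrank_bot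
      rw [IntermediateField.finrank_top', hN] at h1
      have h2 : 1 < p ^ (t + 1) := Nat.one_lt_pow (Nat.succ_ne_zero t) hp.one_lt
      omega
    obtain ⟨T1, -, hG, hT1⟩ := STP F N p (t + 1) hp hN ⊤ hne
    haveI := hG
    haveI : Uncountable T1 := dr1_uncountable (F := F)
    haveI : PerfectField T1 := Algebra.IsAlgebraic.perfectField (K := F) (L := T1)
    have hN1 : Module.finrank T1 N = p ^ t := by
      have h := Module.finrank_mul_finrank F T1 N
      rw [hT1, hN, pow_succ, mul_comm] at h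
      exact Nat.eq_of_mul_eq_mul_right hp.pos h
    obtain ⟨s1, D1, _, _, hD1, hs1⟩ := TS F D T1 hD
    by_cases hK1 : KP p 0 T1 D1
    · rw [hT1] at hs1
      rcases (Nat.dvd_prime hp).mp hs1 with h | h
      · subst h
        exfalso
        exact hK (dr1_KP_of_val hp hD fun x => by
          have := KPD F D T1 D1 p 0 1 hp hD hK1 hD1 x
          simpa using this)
      · have hemb : Nonempty (T1 →ₐ[F] D) := by
          refine EMB F D T1 D1 hD ?_
          rw [hT1, ← h]
          exact hD1.2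
        refine ⟨F, inferInstance, Algebra.id F, inferInstance, inferInstance, T1, inferInstance,
          inferInstance, inferInstance, inferInstance, D, inferInstance, inferInstance, 1, t + 1,
          inferInstance, hN, hG, hT1, ⟨hD, ?_⟩, hemb, ?_⟩
        · exact (DVS F).2.2.1 _ _ ⟨Algebra.TensorProduct.lid F D⟩
        · intro Δ' _ _ s' hΔ'
          obtain ⟨-, ⟨e⟩⟩ := UNI T1 (T1 ⊗[F] D) D1 Δ' s1 s' hD1.2 hΔ'.2
          exact dr1_KP_equiv e hK1
    · have hyp1 : ∀ (Δ : Type u) [DivisionRing Δ] [Algebra N Δ] (s : ℕ),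
          Cor N (N ⊗[T1] D1) Δ s → KP p 0 N Δ := by
        intro Δ _ _ s hΔ
        refine hyp Δ (s1 * s) ⟨hΔ.1, ?_⟩
        exact (MMI N N).1 _ _ _ _ _ ((MMI F T1).2.2.2.2.1 N D D1 s1 hD1.2) hΔ.2
      obtain ⟨M, _, _, _, _, T, _, _, _, _, Δ, _, _, s, b, hfin, hMN, hGT, hT, hCor, hemb, hlast⟩ :=
        ih T1 D1 N p hp hN1 hD1.1 hK1 hyp1
      letI iFM : Algebra F M := ((algebraMap T1 M).comp (algebraMap F T1)).toAlgebra
      haveI tFM : IsScalarTower F T1 M := IsScalarTower.of_algebraMap_eq fun _ => rfl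
      haveI tFMN : IsScalarTower F M N := IsScalarTower.of_algebraMap_eq fun x => by
        rw [IsScalarTower.algebraMap_apply F T1 M, ← IsScalarTower.algebraMap_apply T1 M N,
          ← IsScalarTower.algebraMap_apply F T1 N]
      haveI : FiniteDimensional F M := FiniteDimensional.trans F T1 M
      refine ⟨M, inferInstance, iFM, inferInstance, tFMN, T, inferInstance, inferInstance,
        inferInstance, inferInstance, Δ, inferInstance, inferInstance, s1 * s, b, inferInstance,
        hMN, hGT, hT, ⟨hCor.1, ?_⟩, hemb, hlast⟩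
      exact (MMI M M).1 _ _ _ _ _ ((MMI F T1).2.2.2.2.1 M D D1 s1 hD1.2) hCor.2

end

end Pool.Agent.Helper91.KZ
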