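import Pool.Agent.Helper91.KZ.StG

/-!
# MP_1d885e_al: norms of scalars, semilinear invariance, powers
-/

namespace Pool.Agent.Helper91.KZ

open Polynomial

universe u

noncomputable section

theorem nsc_scalar {K D : Type u} [Field K] [DivisionRing D] [Algebra K D] (q : ℕ) (a : K) :
    NN K q (algebraMap K D a) = a ^ q := by
  have h : minpoly K (algebraMap K D a) = X - C a := minpoly.eq_X_sub_C D a
  unfold NN dg
  rw [h, natDegree_X_sub_C, Nat.div_one]
  simp

theorem nsc_minpoly {K D : Type u} [Field K] [DivisionRing D] [Algebra K D] (φ : D ≃+* D)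
    (σ : K ≃+* K) (h : ∀ a, φ (algebraMap K D a) = algebraMap K D (σ a)) (x : D)
    (hx : IsIntegral K x) : minpoly K (φ x) = (minpoly K x).map (σ : K →+* K) := by
  have hmon : ((minpoly K x).map (σ : K →+* K)).Monic := (minpoly.monic hx).map _
  have hirr : Irreducible ((minpoly K x).map (σ : K →+* K)) := by
    have h1 : Irreducible (minpoly K x) := minpoly.irreducible hx
    have h2 : (minpoly K x).map (σ : K →+* K) = Polynomial.mapEquiv σ (minpoly K x) := rfl
    rw [h2]
    exact (MulEquiv.irreducible_iff (Polynomial.mapEquiv σ)).mpr h1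
  have hroot : aeval (φ x) ((minpoly K x).map (σ : K →+* K)) = 0 := by
    rw [aeval_def, eval₂_map]
    have e : (algebraMap K D).comp (σ : K →+* K) = (φ : D →+* D).comp (algebraMap K D) := by
      ext a
      simp [h a]
    rw [e]
    have h3 : eval₂ ((φ : D →+* D).comp (algebraMap K D)) ((φ : D →+* D) x) (minpoly K x)
        = (φ : D →+* D) (eval₂ (algebraMap K D) x (minpoly K x)) :=
      (hom_eval₂ (minpoly K x) (algebraMap K D) (φ : D →+* D) x).symm
    have h4 : (φ : D →+* D) x = φ x := rfl
    rw [h4] at h3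
    rw [h3, ← aeval_def, minpoly.aeval, map_zero]
  exact (minpoly.eq_of_irreducible_of_monic hirr hroot hmon).symm

theorem st_NSC : ST_NSC.{u} := by
  intro K D _ _ _
  refine ⟨fun q a => nsc_scalar q a, ?_, ?_⟩
  · intro φ σ h x hx
    have hm := nsc_minpoly φ σ h x hx
    have hd : dg K (φ x) = dg K x := by
      unfold dg
      rw [hm, natDegree_map]
    refine ⟨hd, fun q => ?_⟩
    unfold NN
    rw [hd, hm, coeff_map, map_pow, map_mul, map_pow, map_neg, map_one]
    rfl
  · intro q r x hq
    unfold NN
    rw [← Nat.div_mul_right_comm hq, pow_mul]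

end

end Pool.Agent.Helper91.KZ
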